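import Pool.Agent.P8H39.TI.Stm2

set_option autoImplicit false

/-!
Packages BPOS and FIN2 of the project TI.
-/

namespace Pool.Agent.P8H20.TI

open Finset Pool.Agent.P8H39.TI

theorem t_BPOS : S_B1 → S_BPOS := by
  intro hB ν κ r c hκ hν hc0 hc
  have h1 : ∀ q : ℕ, ∃ B : ℕ → ℝ, (∀ e, e ≤ q → B e = 0) ∧ (∀ e, e ≤ r → 0 ≤ B e) ∧
      (q ≤ κ → ∀ l, l ≤ r → ∑ e ∈ range (l + 1), B e * (l.choose e : ℝ) *
        ((ν - l).choose (ν - κ - e) : ℝ) = if q < l then 1 else 0) := by
    intro q
    by_cases hq : q ≤ κ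
    · obtain ⟨B, h1, h2, h3⟩ := hB ν κ q r hκ hq hν
      exact ⟨B, h1, h2, fun _ => h3⟩
    · exact ⟨fun _ => 0, fun _ _ => rfl, fun _ _ => le_rfl, fun h => absurd h hq⟩
  choose B hB0 hBpos hBsum using h1
  obtain ⟨s, hs⟩ : ∃ s : ℕ → ℝ, ∀ l, s l = (((ν - l).choose (ν - κ) : ℕ) : ℝ) := ⟨_, fun _ => rfl⟩
  obtain ⟨m, hm⟩ : ∃ m : ℕ → ℝ, ∀ l, m l = max (c - s l) 0 := ⟨_, fun _ => rfl⟩
  have hκν : κ < ν := by nlinarith
  have hanti : ∀ q, s (q + 1) ≤ s q := by
    intro q
    rw [hs, hs]
    exact_mod_cast Nat.choose_le_choose (ν - κ) (by omega : ν - (q + 1) ≤ ν - q)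
  have hδ0 : ∀ q, 0 ≤ m (q + 1) - m q := by
    intro q
    rw [hm, hm]
    have := max_le_max (sub_le_sub_left (hanti q) c) (le_refl (0 : ℝ))
    linarith
  have hz : ∀ q, κ < q → s q = 0 := by
    intro q hq
    rw [hs, Nat.choose_eq_zero_of_lt (by omega), Nat.cast_zero]
  have hδκ : ∀ q, κ < q → m (q + 1) - m q = 0 := by
    intro q hq
    rw [hm, hm, hz q hq, hz (q + 1) (by omega), sub_self]
  have hm0 : m 0 = 0 := by
    rw [hm, hs, Nat.sub_zero, Nat.choose_symm hκν.le]
    exact max_eq_right (by linarith)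
  refine ⟨fun e => if e ≤ r then (if e = 0 then 1 else 0) +
    ∑ q ∈ range r, (m (q + 1) - m q) * B q e else 0, ?_, ?_, ?_⟩
  · simp only [Nat.zero_le, if_true]
    rw [Finset.sum_eq_zero fun q _ => by rw [hB0 q 0 (Nat.zero_le q), mul_zero], add_zero]
  · intro e
    show (0 : ℝ) ≤ if e ≤ r then (if e = 0 then 1 else 0) +
      ∑ q ∈ range r, (m (q + 1) - m q) * B q e else 0
    by_cases he : e ≤ r
    · rw [if_pos he]
      have h2 : (0 : ℝ) ≤ if e = 0 then 1 else 0 := by split_ifs <;> norm_num
      have h3 : 0 ≤ ∑ q ∈ range r, (m (q + 1) - m q) * B q e :=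
        Finset.sum_nonneg fun q _ => mul_nonneg (hδ0 q) (hBpos q e he)
      linarith
    · rw [if_neg he]
  · intro l hl
    have e1 : ∑ e ∈ range (l + 1), (if e ≤ r then ((if e = 0 then 1 else 0) : ℝ) +
        ∑ q ∈ range r, (m (q + 1) - m q) * B q e else 0) * (l.choose e : ℝ) *
          ((ν - l).choose (ν - κ - e) : ℝ)
        = ∑ e ∈ range (l + 1), (((if e = 0 then 1 else 0) : ℝ) * (l.choose e : ℝ) *
          ((ν - l).choose (ν - κ - e) : ℝ) + ∑ q ∈ range r, (m (q + 1) - m q) * (B q e *
            (l.choose e : ℝ) * ((ν - l).choose (ν - κ - e) : ℝ))) := by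
      refine Finset.sum_congr rfl fun e he => ?_
      rw [Finset.mem_range] at he
      rw [if_pos (by omega), add_mul, add_mul, Finset.sum_mul, Finset.sum_mul]
      congr 1
      exact Finset.sum_congr rfl fun q _ => by ring
    have e2 : ∑ e ∈ range (l + 1), ((if e = 0 then 1 else 0) : ℝ) * (l.choose e : ℝ) *
        ((ν - l).choose (ν - κ - e) : ℝ) = s l := by
      rw [Finset.sum_eq_single 0]
      · rw [hs]
        simp
      · intro e _ he
        rw [if_neg he]
        ring
      · intro h
        simp at h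
    have e3 : ∑ e ∈ range (l + 1), ∑ q ∈ range r, (m (q + 1) - m q) * (B q e *
        (l.choose e : ℝ) * ((ν - l).choose (ν - κ - e) : ℝ)) = m l := by
      rw [Finset.sum_comm]
      have e4 : ∀ q ∈ range r, ∑ e ∈ range (l + 1), (m (q + 1) - m q) * (B q e *
          (l.choose e : ℝ) * ((ν - l).choose (ν - κ - e) : ℝ)) =
            if q < l then (m (q + 1) - m q) else 0 := by
        intro q _
        rw [← Finset.mul_sum]
        by_cases hq : q ≤ κ
        · rw [hBsum q hq l hl]
          split_ifs <;> ring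
        · rw [hδκ q (by omega)]
          split_ifs <;> ring
      rw [Finset.sum_congr rfl e4, ← Finset.sum_filter]
      have e5 : (range r).filter (fun q => q < l) = range l := by
        ext q
        rw [Finset.mem_filter, Finset.mem_range, Finset.mem_range]
        omega
      rw [e5, Finset.sum_range_sub, hm0, sub_zero]
    show ∑ e ∈ range (l + 1), (if e ≤ r then ((if e = 0 then 1 else 0) : ℝ) +
        ∑ q ∈ range r, (m (q + 1) - m q) * B q e else 0) * (l.choose e : ℝ) *
          ((ν - l).choose (ν - κ - e) : ℝ) = _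
    rw [e1, Finset.sum_add_distrib, e2, e3, hm, ← hs]
    rcases le_total (s l) c with h | h
    · rw [max_eq_left (by linarith), max_eq_right h]
      ring
    · rw [max_eq_right (by linarith), max_eq_left h, add_zero]

theorem t_FIN2 : S_FINL → S_TH → S_PW → S_KONE → S_FIN2 := by
  intro hF hT hP hK
  refine ⟨?_, hF.2⟩
  intro n k t r p F T ht htk hr hrk hn hTI hTc hp
  rcases hp with rfl | ⟨hrt, hp2⟩
  · exact hF.1 n k t r 2 F T ht htk hr hrk hn hTI hTc (Or.inl rfl)
  · by_cases hk1 : k = t
    · subst hk1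
      have h2 := hF.1 n k k r 2 F T ht htk hr hrk hn hTI hTc (Or.inl rfl)
      have key : ∀ G : Finset (Finset (Fin n)), G.card ≤ 1 → ell r p G = ell r 2 G := by
        intro G hG
        unfold ell
        refine Finset.sum_congr rfl fun R _ => ?_
        have h3 : deg G R ≤ 1 := (Finset.card_filter_le _ _).trans hG
        rcases Nat.le_one_iff_eq_zero_or_eq_one.1 h3 with h | h
        · rw [h, Nat.cast_zero, Real.zero_rpow (by linarith), Real.zero_rpow (by norm_num)]
        · rw [h, Nat.cast_one, Real.one_rpow, Real.one_rpow]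
      have hFc : F.card ≤ 1 := by
        rw [Finset.card_le_one]
        intro A hA B hB
        have h4 := hTI.2 A hA B hB
        have hAc := hTI.1 A hA
        have hBc := hTI.1 B hB
        have h5 : A ∩ B = A := Finset.eq_of_subset_of_card_le Finset.inter_subset_left (by omega)
        have h6 : A ∩ B = B := Finset.eq_of_subset_of_card_le Finset.inter_subset_right (by omega)
        rw [← h5, h6]
      have hSc : (star k T).card ≤ 1 := by
        rw [Finset.card_le_one]
        have h7 : ∀ A ∈ star k T, A = T := by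
          intro A hA
          unfold Pool.Agent.P8H39.TI.star at hA
          rw [Finset.mem_filter, Finset.mem_powersetCard] at hA
          exact (Finset.eq_of_subset_of_card_le hA.2 (by rw [hA.1.2, hTc])).symm
        intro A hA B hB
        rw [h7 A hA, h7 B hB]
      rw [key F hFc, key _ hSc]
      exact h2
    · by_cases hk2 : k = t + 1
      · subst hk2
        have hn' : 2 * (t + 1) ≤ n := by
          have h8 : (t + 1) * (t + 1 - t + 1) = 2 * (t + 1) := by
            rw [show t + 1 - t + 1 = 2 by omega]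
            ring
          omega
        exact hK n t r p F T ht hn' hTI hTc (by omega) hp2
      · unfold ell
        refine hP n (slice n r) (fun R => (deg F R : ℝ)) (fun R => (deg (star k T) R : ℝ)) p hp2
          (fun R _ => Nat.cast_nonneg _) (fun R _ => Nat.cast_nonneg _) ?_
        intro c hc
        exact hT n k t r c F T ht (by omega) hrt hn hTI hTc hc

end Pool.Agent.P8H20.TI
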